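import Pool.Graph.R_pool_sql_team_seeded_35f281b4.K7.H59.DC.Good

/-!
# Places of the nonzero coefficients: no geometric gaps

Let `p` be an odd prime, `B` a power series over `ZMod p` with `ps (B ^ 2) R = D` and
`ps B (R / p) = - ps B R` for all `R < N` outside a set of fewer than `w` places.  Then two nonzero
coefficients of `B` stand close to each other.
-/

set_option autoImplicit false

namespace Pool.Agent.H90.SR

open Finset Pool.Agent.K7.H59.DC

variable {p : ℕ} [hpF : Fact p.Prime]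

/-- The hypotheses of the argument. -/
structure Hyp (p : ℕ) [Fact p.Prime] (B : PowerSeries (ZMod p)) (D : ZMod p) (N N₁ w g : ℕ)
    (E : Finset ℕ) : Prop where
  hp2 : p ≠ 2
  hD : D ≠ 0
  hg : 2 ≤ g
  hE : E.card < w
  hN₁ : 8 * p * g * w ≤ N₁
  good : ∀ R, R < N → R ∉ E → ps (B ^ 2) R = D ∧ ps B (R / p) = - ps B R
  gap : ∀ a a', N₁ ≤ a → a < a' → a' < N → PowerSeries.coeff a B ≠ 0 →
    PowerSeries.coeff a' B ≠ 0 → a' ≤ g * (a' - a)

theorem ps_succ (B : PowerSeries (ZMod p)) (n : ℕ) :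
    ps B (n + 1) = ps B n + PowerSeries.coeff (n + 1) B := by
  rw [ps_eq_sum, ps_eq_sum, Finset.sum_range_succ]

theorem ps_const (B : PowerSeries (ZMod p)) {a c : ℕ} (hac : a ≤ c)
    (h : ∀ i, a < i → i ≤ c → PowerSeries.coeff i B = 0) : ps B a = ps B c := by
  induction c, hac using Nat.le_induction with
  | base => rfl
  | succ c hc ih =>
    rw [ps_succ, h (c + 1) (by omega) le_rfl, add_zero]
    exact ih fun i hi1 hi2 => h i hi1 (by omega)

theorem ps_jump (B : PowerSeries (ZMod p)) {a c : ℕ} (hac : a ≤ c) (h : ps B a ≠ ps B c) :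
    ∃ i, a < i ∧ i ≤ c ∧ PowerSeries.coeff i B ≠ 0 := by
  by_contra hcon
  push Not at hcon
  exact h (ps_const B hac hcon)

section

variable {B : PowerSeries (ZMod p)} {D : ZMod p} {N N₁ w g : ℕ} {E : Finset ℕ}

theorem Hyp.exists_good (H : Hyp p B D N N₁ w g E) (a : ℕ) (ha : a + w ≤ N) :
    ∃ R, a ≤ R ∧ R < a + w ∧ ps (B ^ 2) R = D ∧ ps B (R / p) = - ps B R := by
  by_contra hcon
  push Not at hcon
  have h1 : Ico a (a + w) ⊆ E := by
    intro R hR
    rw [mem_Ico] at hR
    by_contra hRE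
    obtain ⟨h2, h3⟩ := H.good R (by omega) hRE
    exact hcon R hR.1 hR.2 h2 h3
  have h2 := card_le_card h1
  rw [Nat.card_Ico] at h2
  have := H.hE
  omega

theorem Hyp.w_pos (H : Hyp p B D N N₁ w g E) : 0 < w := by
  have := H.hE
  omega

theorem Hyp.N₁_ge (H : Hyp p B D N N₁ w g E) : 48 * w ≤ N₁ := by
  have h1 := H.hN₁
  have h2 := H.hg
  have h3 : 3 ≤ p := by
    have := hpF.out.two_le
    have := H.hp2
    omega
  calc 48 * w = 8 * 3 * 2 * w := by ring
    _ ≤ 8 * p * g * w := by gcongr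
    _ ≤ N₁ := h1

theorem Hyp.sep (H : Hyp p B D N N₁ w g E) {a c : ℕ} (hac : a < c) (hc : 2 * N₁ ≤ c) (hcN : c < N)
    (ha0 : PowerSeries.coeff a B ≠ 0) (hc0 : PowerSeries.coeff c B ≠ 0) : c ≤ g * (c - a) := by
  by_cases h : N₁ ≤ a
  · exact H.gap a c h hac hcN ha0 hc0
  · push Not at h
    have h2 := H.hg
    calc c ≤ 2 * (c - a) := by omega
      _ ≤ g * (c - a) := Nat.mul_le_mul_right _ h2

theorem Hyp.sepw (H : Hyp p B D N N₁ w g E) {a c : ℕ} (hac : a < c) (hc : 2 * N₁ ≤ c) (hcN : c < N)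
    (ha0 : PowerSeries.coeff a B ≠ 0) (hc0 : PowerSeries.coeff c B ≠ 0) :
    16 * (p * w) ≤ c - a := by
  have h1 := H.sep hac hc hcN ha0 hc0
  have h2 := H.hN₁
  have h3 := H.hg
  have h4 : g * (16 * (p * w)) ≤ g * (c - a) := by
    calc g * (16 * (p * w)) = 2 * (8 * p * g * w) := by ring
      _ ≤ 2 * N₁ := Nat.mul_le_mul_left _ h2
      _ ≤ c := hc
      _ ≤ _ := h1
  exact Nat.le_of_mul_le_mul_left h4 (by omega)

theorem Hyp.pw (H : Hyp p B D N N₁ w g E) : 3 * w ≤ p * w := by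
  have h3 : 3 ≤ p := by
    have := hpF.out.two_le
    have := H.hp2
    omega
  exact Nat.mul_le_mul_right _ h3

theorem coeff_ne_of (B : PowerSeries (ZMod p)) {a : ℕ} (ha : 1 ≤ a)
    (h : PowerSeries.coeff a B ≠ 0) : ps B (a - 1) ≠ ps B a := by
  intro h1
  have h2 := ps_succ B (a - 1)
  rw [Nat.sub_add_cancel ha] at h2
  rw [h1] at h2
  exact h (by simpa using h2)

/-- From a place `a` to a place near `p a`. -/
theorem Hyp.forward (H : Hyp p B D N N₁ w g E) {a : ℕ} (ha : 2 * N₁ ≤ a) (haN : p * a + w ≤ N)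
    (ha0 : PowerSeries.coeff a B ≠ 0) :
    ∃ a', p * a < a' + w ∧ a' < p * a + w ∧ PowerSeries.coeff a' B ≠ 0 := by
  have hp0 : 0 < p := hpF.out.pos
  have hw := H.w_pos
  have hN := H.N₁_ge
  have hpa : a ≤ p * a := Nat.le_mul_of_pos_left a hp0
  have hpw := H.pw
  obtain ⟨R₁, h1, h2, -, h3⟩ := H.exists_good (p * a - w) (by omega)
  obtain ⟨R₂, h4, h5, -, h6⟩ := H.exists_good (p * a) haN
  have e1 : ps B (R₁ / p) = ps B (a - 1) := by
    apply ps_const
    · have : R₁ / p < a := by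
        rw [Nat.div_lt_iff_lt_mul hp0, mul_comm a p]; omega
      omega
    · intro i hi1 hi2
      by_contra hi0
      have h7 : R₁ < i * p := by
        rwa [Nat.div_lt_iff_lt_mul hp0] at hi1
      have h8 := H.sepw (a := i) (c := a) (by omega) ha (by omega) hi0 ha0
      have h9 : a - i ≤ p * (a - i) := Nat.le_mul_of_pos_left _ hp0
      rw [Nat.mul_sub, mul_comm p i] at h9
      omega
  have e2 : ps B a = ps B (R₂ / p) := by
    apply ps_const
    · rw [Nat.le_div_iff_mul_le hp0, mul_comm]; exact h4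
    · intro i hi1 hi2
      by_contra hi0
      have h7 : i * p ≤ R₂ := by
        rwa [Nat.le_div_iff_mul_le hp0] at hi2
      have h10 : i ≤ i * p := Nat.le_mul_of_pos_right _ hp0
      have h8 := H.sepw (a := a) (c := i) hi1 (by omega) (by omega) ha0 hi0
      have h9 : i - a ≤ p * (i - a) := Nat.le_mul_of_pos_left _ hp0
      rw [Nat.mul_sub, mul_comm p i] at h9
      omega
  have hne := coeff_ne_of B (by omega) ha0
  have hne2 : ps B R₁ ≠ ps B R₂ := by
    intro h
    apply hne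
    rw [← e1, e2, h3, h6, h]
  obtain ⟨i, hi1, hi2, hi3⟩ := ps_jump B (by omega) hne2
  exact ⟨i, by omega, by omega, hi3⟩

/-- From a place `a'` to a place near `a' / p`. -/
theorem Hyp.backward (H : Hyp p B D N N₁ w g E) {a' : ℕ} (ha : 2 * N₁ ≤ a') (haN : a' + w ≤ N)
    (ha0 : PowerSeries.coeff a' B ≠ 0) :
    ∃ a, p * a < a' + w ∧ a' < p * a + w ∧ PowerSeries.coeff a B ≠ 0 := by
  have hp0 : 0 < p := hpF.out.pos
  have hw := H.w_pos
  have hN := H.N₁_ge
  have hpw := H.pw
  obtain ⟨R₁, h1, h2, -, h3⟩ := H.exists_good (a' - w) (by omega)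
  obtain ⟨R₂, h4, h5, -, h6⟩ := H.exists_good a' haN
  have e1 : ps B R₁ = ps B (a' - 1) := by
    apply ps_const _ (by omega)
    intro i hi1 hi2
    by_contra hi0
    have h8 := H.sepw (a := i) (c := a') (by omega) ha (by omega) hi0 ha0
    omega
  have e2 : ps B a' = ps B R₂ := by
    apply ps_const _ (by omega)
    intro i hi1 hi2
    by_contra hi0
    have h8 := H.sepw (a := a') (c := i) hi1 (by omega) (by omega) ha0 hi0
    omega
  have hne := coeff_ne_of B (by omega) ha0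
  have hne2 : ps B (R₁ / p) ≠ ps B (R₂ / p) := by
    intro h
    apply hne
    rw [← e1, e2]
    have h7 : - ps B R₁ = - ps B R₂ := by rw [← h3, ← h6, h]
    exact neg_injective h7
  obtain ⟨i, hi1, hi2, hi3⟩ := ps_jump B (Nat.div_le_div_right (by omega)) hne2
  rw [Nat.div_lt_iff_lt_mul hp0, mul_comm] at hi1
  rw [Nat.le_div_iff_mul_le hp0, mul_comm] at hi2
  exact ⟨i, by omega, by omega, hi3⟩

/-- There is a place to start from. -/
theorem Hyp.start (H : Hyp p B D N N₁ w g E) (hN : 4 * p * N₁ + w ≤ N) :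
    ∃ z, 2 * N₁ ≤ z ∧ z < 4 * p * N₁ + w ∧ PowerSeries.coeff z B ≠ 0 := by
  by_contra hcon
  push Not at hcon
  have hp0 : 0 < p := hpF.out.pos
  have hp3 : 3 ≤ p := by
    have := hpF.out.two_le
    have := H.hp2
    omega
  have hw := H.w_pos
  have hN1 := H.N₁_ge
  obtain ⟨R, h1, h2, h3, h4⟩ := H.exists_good (4 * p * N₁) hN
  have hR1 : 12 * N₁ ≤ R := by
    calc 12 * N₁ = 4 * 3 * N₁ := by ring
      _ ≤ 4 * p * N₁ := by gcongr
      _ ≤ R := h1
  have hconst : ∀ i, 2 * N₁ ≤ i → i ≤ R → ps B i = ps B R := by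
    intro i hi1 hi2
    apply ps_const _ hi2
    intro j hj1 hj2
    exact hcon j (by omega) (by omega)
  have h5 : 2 * N₁ ≤ R / p := by
    rw [Nat.le_div_iff_mul_le hp0]
    calc 2 * N₁ * p ≤ 4 * p * N₁ := by nlinarith
      _ ≤ R := h1
  have h6 : ps B R = 0 := by
    have h7 := hconst (R / p) h5 (Nat.div_le_self _ _)
    rw [h7] at h4
    have h8 : (2 : ZMod p) * ps B R = 0 := by linear_combination h4
    rcases mul_eq_zero.1 h8 with h9 | h9
    · exfalso
      have h10 : ((2 : ℕ) : ZMod p) = 0 := by exact_mod_cast h9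
      rw [ZMod.natCast_eq_zero_iff] at h10
      have := Nat.le_of_dvd (by norm_num) h10
      omega
    · exact h9
  apply H.hD
  rw [← h3, pow_two, ps_mul]
  apply Finset.sum_eq_zero
  intro i hi
  rw [mem_range] at hi
  by_cases hi2 : 2 * N₁ ≤ i
  · rw [hcon i hi2 (by omega), zero_mul]
  · rw [hconst (R - i) (by omega) (by omega), h6, mul_zero]

/-- The places of the nonzero coefficients in `[u, v)`. -/
noncomputable def pl (B : PowerSeries (ZMod p)) (u v : ℕ) : Finset ℕ := by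
  classical
  exact (Ico u v).filter fun a => PowerSeries.coeff a B ≠ 0

theorem mem_pl (B : PowerSeries (ZMod p)) (u v a : ℕ) :
    a ∈ pl B u v ↔ (u ≤ a ∧ a < v) ∧ PowerSeries.coeff a B ≠ 0 := by
  classical
  unfold pl
  rw [mem_filter, mem_Ico]

/-- The number of the places does not grow from one scale to the next. -/
theorem Hyp.card_step (H : Hyp p B D N N₁ w g E) {u v v' : ℕ} (hu : 2 * N₁ ≤ u)
    (hu0 : PowerSeries.coeff u B ≠ 0) (hv0 : PowerSeries.coeff v B ≠ 0)
    (hv0' : PowerSeries.coeff v' B ≠ 0)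
    (h1 : p * u < v + w) (h2 : v < p * u + w) (h3 : p * v < v' + w) (h4 : v' < p * v + w)
    (hN : v' + w ≤ N) : (pl B v v').card ≤ (pl B u v).card := by
  have hp0 : 0 < p := hpF.out.pos
  have hp3 : 3 ≤ p := by
    have := hpF.out.two_le
    have := H.hp2
    omega
  have hw := H.w_pos
  have hN1 := H.N₁_ge
  have hpw := H.pw
  have huv : u < v := by
    have : 3 * u ≤ p * u := Nat.mul_le_mul_right _ hp3
    omega
  have hvv : v < v' := by
    have : 3 * v ≤ p * v := Nat.mul_le_mul_right _ hp3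
    omega
  apply Finset.card_le_card_of_forall_subsingleton
    (r := fun a' a => p * a < a' + w ∧ a' < p * a + w)
  · intro a' ha'
    rw [mem_pl] at ha'
    obtain ⟨a, ha1, ha2, ha3⟩ := H.backward (a' := a') (by omega) (by omega) ha'.2
    refine ⟨a, ?_, ha1, ha2⟩
    rw [mem_pl]
    refine ⟨⟨?_, ?_⟩, ha3⟩
    · by_contra hlt
      push Not at hlt
      have h5 := H.sepw hlt hu (by omega) ha3 hu0
      have h6 : u - a ≤ p * (u - a) := Nat.le_mul_of_pos_left _ hp0
      rw [Nat.mul_sub] at h6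
      omega
    · by_contra hge
      push Not at hge
      rcases Nat.lt_or_ge v a with h | h
      · have hpa : a ≤ p * a := Nat.le_mul_of_pos_left a hp0
        have h5 := H.sepw h (by omega) (by omega) hv0 ha3
        have h6 : a - v ≤ p * (a - v) := Nat.le_mul_of_pos_left _ hp0
        rw [Nat.mul_sub] at h6
        omega
      · have h5 : a = v := by omega
        subst h5
        have h6 := H.sepw ha'.1.2 (by omega) (by omega) ha'.2 hv0'
        omega
  · intro a ha a₁ h₁ a₂ h₂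
    simp only [Set.mem_ofPred_eq, mem_pl] at h₁ h₂
    rcases Nat.lt_trichotomy a₁ a₂ with h | h | h
    · have h6 := H.sepw h (by omega) (by omega) h₁.1.2 h₂.1.2
      omega
    · exact h
    · have h6 := H.sepw h (by omega) (by omega) h₂.1.2 h₁.1.2
      omega

/-- If a sum of two places is isolated as such, its coefficient does not cancel. -/
theorem Hyp.pair (H : Hyp p B D N N₁ w g E) {s u R₁ R₂ : ℕ} (hus : u < s)
    (hs0 : PowerSeries.coeff s B ≠ 0) (hu0 : PowerSeries.coeff u B ≠ 0)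
    (h1 : R₁ < s + u) (h2 : s + u ≤ R₂) (h3 : ps (B ^ 2) R₁ = ps (B ^ 2) R₂) :
    ∃ y y', y' ≤ y ∧ PowerSeries.coeff y B ≠ 0 ∧ PowerSeries.coeff y' B ≠ 0 ∧
      R₁ < y + y' ∧ y + y' ≤ R₂ ∧ ¬ (y = s ∧ y' = u) := by
  by_contra hcon
  push Not at hcon
  -- all pairs in the range are `(s, u)` or `(u, s)`
  have key : ∀ x y, PowerSeries.coeff x B * PowerSeries.coeff y B ≠ 0 → R₁ < x + y →
      x + y ≤ R₂ → (x = s ∧ y = u) ∨ (x = u ∧ y = s) := by
    intro x y hxy h4 h5
    rcases le_total y x with h | h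
    · left
      exact hcon x y h (left_ne_zero_of_mul hxy) (right_ne_zero_of_mul hxy) h4 h5
    · right
      have := hcon y x h (right_ne_zero_of_mul hxy) (left_ne_zero_of_mul hxy) (by omega) (by omega)
      exact ⟨this.2, this.1⟩
  have hp2 : (2 : ZMod p) ≠ 0 := by
    intro h9
    have h10 : ((2 : ℕ) : ZMod p) = 0 := by exact_mod_cast h9
    rw [ZMod.natCast_eq_zero_iff] at h10
    have h11 := Nat.le_of_dvd (by norm_num) h10
    have := hpF.out.two_le
    have := H.hp2
    omega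
  have hzero : ∀ m, R₁ < m → m ≤ R₂ → m ≠ s + u → PowerSeries.coeff m (B ^ 2) = 0 := by
    intro m hm1 hm2 hm3
    rw [pow_two, PowerSeries.coeff_mul]
    apply Finset.sum_eq_zero
    intro x hx
    rw [HasAntidiagonal.mem_antidiagonal] at hx
    by_contra hne
    rcases key x.1 x.2 hne (by omega) (by omega) with h | h <;> omega
  have hmain : PowerSeries.coeff (s + u) (B ^ 2) =
      2 * (PowerSeries.coeff s B * PowerSeries.coeff u B) := by
    rw [pow_two, PowerSeries.coeff_mul]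
    have hsub : ({(s, u), (u, s)} : Finset (ℕ × ℕ)) ⊆ antidiagonal (s + u) := by
      intro x hx
      rw [HasAntidiagonal.mem_antidiagonal]
      rw [mem_insert, mem_singleton] at hx
      rcases hx with rfl | rfl
      · rfl
      · exact add_comm _ _
    rw [← Finset.sum_subset hsub]
    · rw [Finset.sum_pair]
      · ring
      · intro h
        rw [Prod.mk.injEq] at h
        omega
    · intro x hx hx2
      rw [HasAntidiagonal.mem_antidiagonal] at hx
      by_contra hne
      apply hx2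
      rw [mem_insert, mem_singleton]
      rcases key x.1 x.2 hne (by omega) (by omega) with h | h
      · left; exact Prod.ext h.1 h.2
      · right; exact Prod.ext h.1 h.2
  have e1 : ps (B ^ 2) R₁ = ps (B ^ 2) (s + u - 1) :=
    ps_const _ (by omega) fun i hi1 hi2 => hzero i hi1 (by omega) (by omega)
  have e2 : ps (B ^ 2) (s + u) = ps (B ^ 2) R₂ :=
    ps_const _ h2 fun i hi1 hi2 => hzero i (by omega) hi2 (by omega)
  have e3 := ps_succ (B ^ 2) (s + u - 1)
  rw [show s + u - 1 + 1 = s + u by omega, e2, ← h3, e1, hmain] at e3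
  have e4 : (2 : ZMod p) * (PowerSeries.coeff s B * PowerSeries.coeff u B) = 0 := by
    linear_combination -e3
  exact mul_ne_zero hp2 (mul_ne_zero hs0 hu0) e4

/-- The count at a far scale. -/
theorem Hyp.count (H : Hyp p B D N N₁ w g E) {z Z u s : ℕ} (hz : 2 * N₁ ≤ z)
    (hu : 2 * N₁ ≤ u) (hs0 : PowerSeries.coeff s B ≠ 0)
    (hus1 : p * u < s + w) (hZs : g * g * (Z + 2 * w) ≤ s)
    (hN : s + Z + w ≤ N) : (pl B z Z).card ≤ (pl B u s).card := by
  have hp0 : 0 < p := hpF.out.pos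
  have hp3 : 3 ≤ p := by
    have := hpF.out.two_le
    have := H.hp2
    omega
  have hw := H.w_pos
  have hN1 := H.N₁_ge
  have hpw := H.pw
  have hg := H.hg
  have hus : 2 * u ≤ s := by
    have : 3 * u ≤ p * u := Nat.mul_le_mul_right _ hp3
    omega
  have hgg : 2 * g ≤ g * g := Nat.mul_le_mul_right _ hg
  have hZs2 : g * (Z + 2 * w) ≤ s := by
    refine le_trans ?_ hZs
    exact Nat.mul_le_mul_right _ (by omega)
  have hZs3 : 4 * (Z + 2 * w) ≤ s := by
    refine le_trans ?_ hZs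
    exact Nat.mul_le_mul_right _ (by omega)
  have hs2 : 2 * N₁ ≤ s := by omega
  apply Finset.card_le_card_of_forall_subsingleton
    (r := fun v y => ∃ y', PowerSeries.coeff y' B ≠ 0 ∧ y' ≤ y ∧ s + v < y + y' + w ∧
      y + y' < s + v + w)
  · intro v hv
    rw [mem_pl] at hv
    obtain ⟨R₁, a1, a2, a3, -⟩ := H.exists_good (s + v - w) (by omega)
    obtain ⟨R₂, b1, b2, b3, -⟩ := H.exists_good (s + v) (by omega)
    obtain ⟨y, y', c1, c2, c3, c4, c5, c6⟩ := H.pair (s := s) (u := v) (R₁ := R₁) (R₂ := R₂)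
      (by omega) hs0 hv.2 (by omega) (by omega) (by rw [a3, b3])
    refine ⟨y, ?_, y', c3, c1, by omega, by omega⟩
    rw [mem_pl]
    have hyN : y < N := by omega
    have hys : y < s := by
      by_contra hge
      push Not at hge
      rcases Nat.lt_or_ge s y with h | h
      · have h5 := H.sep h (by omega) hyN hs0 c2
        have h6 : g * (y - s) ≤ g * (Z + 2 * w) := Nat.mul_le_mul_left _ (by omega)
        omega
      · have h5 : y = s := by omega
        subst h5
        apply c6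
        refine ⟨rfl, ?_⟩
        rcases Nat.lt_trichotomy y' v with h | h | h
        · have h6 := H.sepw h (by omega) (by omega) c3 hv.2
          omega
        · exact h
        · have h6 := H.sepw h (by omega) (by omega) hv.2 c3
          omega
    exact ⟨⟨by omega, hys⟩, c2⟩
  · intro y hy v₁ h₁ v₂ h₂
    rw [mem_pl] at hy
    simp only [Set.mem_ofPred_eq, mem_pl] at h₁ h₂
    obtain ⟨⟨⟨hz1, hZ1⟩, hv1⟩, y₁, d1, d2, d3, d4⟩ := h₁
    obtain ⟨⟨⟨hz2, hZ2⟩, hv2⟩, y₂, e1, e2, e3, e4⟩ := h₂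
    have hsy := H.sep hy.1.2 hs2 (by omega) hy.2 hs0
    have hsz : s - y < y₁ := by omega
    have hsz2 : s - y < y₂ := by omega
    have hA : s ≤ g * y₁ := le_trans hsy (Nat.mul_le_mul_left _ hsz.le)
    have hB : s ≤ g * y₂ := le_trans hsy (Nat.mul_le_mul_left _ hsz2.le)
    -- `y₁` and `y₂` are large
    have hL : ∀ t, s ≤ g * t → g * (Z + 2 * w) ≤ t := by
      intro t ht
      have : g * (g * (Z + 2 * w)) ≤ g * t := by
        calc g * (g * (Z + 2 * w)) = g * g * (Z + 2 * w) := by ring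
          _ ≤ s := hZs
          _ ≤ g * t := ht
      exact Nat.le_of_mul_le_mul_left this (by omega)
    have hL1 := hL y₁ hA
    have hL2 := hL y₂ hB
    have h2Z : 2 * (Z + 2 * w) ≤ g * (Z + 2 * w) := Nat.mul_le_mul_right _ hg
    have hfar : ∀ t t', PowerSeries.coeff t B ≠ 0 → PowerSeries.coeff t' B ≠ 0 → t < t' →
        t' < N → g * (Z + 2 * w) ≤ t' → 2 * N₁ ≤ t' → Z + 2 * w ≤ t' - t := by
      intro t t' ht ht' htt htN htg htN1
      have h5 := H.sep htt htN1 htN ht ht'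
      exact Nat.le_of_mul_le_mul_left (le_trans htg h5) (by omega)
    rcases Nat.lt_trichotomy v₁ v₂ with h | h | h
    · exfalso
      have h6 := H.sepw h (by omega) (by omega) hv1 hv2
      have h7 := hfar y₁ y₂ d1 e1 (by omega) (by omega) hL2 (by omega)
      omega
    · exact h
    · exfalso
      have h6 := H.sepw h (by omega) (by omega) hv2 hv1
      have h7 := hfar y₂ y₁ e1 d1 (by omega) (by omega) hL1 (by omega)
      omega

/-- The hypotheses are contradictory as soon as `N` is large. -/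
theorem Hyp.false_of_large (H : Hyp p B D N N₁ w g E)
    (hN : 21 * p ^ 4 * g ^ 2 * N₁ ≤ N) : False := by
  have hp0 : 0 < p := hpF.out.pos
  have hp3 : 3 ≤ p := by
    have := hpF.out.two_le
    have := H.hp2
    omega
  have hw := H.w_pos
  have hN1 := H.N₁_ge
  have hpw := H.pw
  have hg := H.hg
  have hgg : 1 ≤ g ^ 2 := Nat.one_le_pow _ _ (by omega)
  have hpN : N₁ ≤ p * N₁ := Nat.le_mul_of_pos_left _ hp0
  have hp2N : 3 * (p * N₁) ≤ p * (p * N₁) := Nat.mul_le_mul_right _ hp3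
  have hp3N : 3 * (p * (p * N₁)) ≤ p * (p * (p * N₁)) := Nat.mul_le_mul_right _ hp3
  have hp4N : 3 * (p * (p * (p * N₁))) ≤ p * (p * (p * (p * N₁))) := Nat.mul_le_mul_right _ hp3
  have hNbig : 21 * (p * (p * (p * (p * N₁)))) ≤ N := by
    refine le_trans ?_ hN
    calc 21 * (p * (p * (p * (p * N₁)))) = 21 * p ^ 4 * 1 * N₁ := by ring
      _ ≤ 21 * p ^ 4 * g ^ 2 * N₁ := by gcongr
  have h4p : 4 * p * N₁ = 4 * (p * N₁) := by ring
  obtain ⟨z₀, a1, a2, a3⟩ := H.start (by omega)
  rw [h4p] at a2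
  have hpz0 : p * z₀ ≤ p * (4 * (p * N₁) + w) := Nat.mul_le_mul_left _ a2.le
  rw [Nat.mul_add] at hpz0
  have e0 : p * (4 * (p * N₁)) = 4 * (p * (p * N₁)) := by ring
  have hpwN : 48 * (p * w) ≤ p * N₁ := by
    calc 48 * (p * w) = p * (48 * w) := by ring
      _ ≤ p * N₁ := Nat.mul_le_mul_left _ hN1
  obtain ⟨z₁, b1, b2, b3⟩ := H.forward a1 (by omega) a3
  have hz0p : 3 * z₀ ≤ p * z₀ := Nat.mul_le_mul_right _ hp3
  have hpz1 : p * z₁ ≤ p * (5 * (p * (p * N₁))) := Nat.mul_le_mul_left _ (by omega)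
  have e1 : p * (5 * (p * (p * N₁))) = 5 * (p * (p * (p * N₁))) := by ring
  obtain ⟨z₂, c1, c2, c3⟩ := H.forward (a := z₁) (by omega) (by omega) b3
  have hz1p : 3 * z₁ ≤ p * z₁ := Nat.mul_le_mul_right _ hp3
  have hz2 : z₂ + 2 * w ≤ 6 * (p * (p * (p * N₁))) := by omega
  -- the target scale
  set T := g ^ 2 * (z₂ + 2 * w) with hT
  have hTle : T ≤ 6 * (p ^ 3 * g ^ 2 * N₁) := by
    calc T ≤ g ^ 2 * (6 * (p * (p * (p * N₁)))) := Nat.mul_le_mul_left _ hz2
      _ = 6 * (p ^ 3 * g ^ 2 * N₁) := by ring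
  have hTN : 3 * (p * T) ≤ N := by
    calc 3 * (p * T) ≤ 3 * (p * (6 * (p ^ 3 * g ^ 2 * N₁))) := by gcongr
      _ = 18 * (p ^ 4 * g ^ 2 * N₁) := by ring
      _ ≤ 21 * (p ^ 4 * g ^ 2 * N₁) := by gcongr; norm_num
      _ = 21 * p ^ 4 * g ^ 2 * N₁ := by ring
      _ ≤ N := hN
  have hTz : z₂ + 2 * w ≤ T := Nat.le_mul_of_pos_left _ (by omega)
  have hpT : 3 * T ≤ p * T := Nat.mul_le_mul_right _ hp3
  -- iterate
  have hchain : ∀ k : ℕ, ∃ u v, PowerSeries.coeff u B ≠ 0 ∧ PowerSeries.coeff v B ≠ 0 ∧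
      2 * N₁ ≤ u ∧ p * u < v + w ∧ v < p * u + w ∧ (pl B u v).card ≤ (pl B z₁ z₂).card ∧
      ((T ≤ v ∧ v < 2 * (p * T)) ∨ (v < T ∧ z₂ + k ≤ v)) := by
    intro k
    induction k with
    | zero =>
      refine ⟨z₁, z₂, b3, c3, by omega, c1, c2, le_rfl, ?_⟩
      right
      omega
    | succ k ih =>
      obtain ⟨u, v, d1, d2, d3, d4, d5, d6, d7⟩ := ih
      rcases d7 with d7 | ⟨d7, d8⟩
      · exact ⟨u, v, d1, d2, d3, d4, d5, d6, Or.inl d7⟩
      · have hpv : p * v ≤ p * T := Nat.mul_le_mul_left _ d7.le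
        have hpu : 3 * u ≤ p * u := Nat.mul_le_mul_right _ hp3
        have hpv3 : 3 * v ≤ p * v := Nat.mul_le_mul_right _ hp3
        obtain ⟨v', e1', e2', e3'⟩ := H.forward (a := v) (by omega) (by omega) d2
        refine ⟨v, v', d2, e3', by omega, e1', e2', ?_, ?_⟩
        · exact le_trans (H.card_step d3 d1 d2 e3' d4 d5 e1' e2' (by omega)) d6
        · rcases Nat.lt_or_ge v' T with h | h
          · right; omega
          · left; omega
  obtain ⟨u, v, d1, d2, d3, d4, d5, d6, d7⟩ := hchain T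
  have d8 : T ≤ v ∧ v < 2 * (p * T) := by
    rcases d7 with h | h
    · exact h
    · omega
  have hcount := H.count (z := z₀) (Z := z₂) (u := u) (s := v) a1 d3 d2 d4
    (by rw [← pow_two]; exact d8.1) (by omega)
  have hsplit : (pl B z₁ z₂).card + 1 ≤ (pl B z₀ z₂).card := by
    have h5 : insert z₀ (pl B z₁ z₂) ⊆ pl B z₀ z₂ := by
      intro a ha
      rw [mem_insert] at ha
      rw [mem_pl]
      rcases ha with rfl | ha
      · exact ⟨⟨le_rfl, by omega⟩, a3⟩
      · rw [mem_pl] at ha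
        exact ⟨⟨by omega, ha.1.2⟩, ha.2⟩
    have h6 : z₀ ∉ pl B z₁ z₂ := by
      rw [mem_pl]
      intro h
      omega
    have h7 := card_le_card h5
    rw [card_insert_of_notMem h6] at h7
    exact h7
  omega

end

end Pool.Agent.H90.SR
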