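import Mathlib

/-!
# A natural number which is not a square is a nonresidue modulo arbitrarily large primes
-/

set_option autoImplicit false

namespace Pool.Agent.H90.SR

open scoped NumberTheorySymbols

theorem nonres_of_squarefree_part {D d s n : ℕ} [Fact n.Prime] (hD : s ^ 2 * d = D) (hn : D < n)
    (hD0 : D ≠ 0) (h : ¬ IsSquare (d : ZMod n)) : ¬ IsSquare (D : ZMod n) := by
  rintro ⟨t, ht⟩
  apply h
  have hs0 : s ≠ 0 := by
    rintro rfl
    simp at hD
    exact hD0 hD.symm
  have hd0 : d ≠ 0 := by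
    rintro rfl
    simp at hD
    exact hD0 hD.symm
  have hsD : s ≤ D := by
    rw [← hD, pow_two]
    calc s ≤ s * s := Nat.le_mul_self s
      _ ≤ s * s * d := Nat.le_mul_of_pos_right _ (by omega)
  have hs : (s : ZMod n) ≠ 0 := by
    intro h0
    rw [ZMod.natCast_eq_zero_iff] at h0
    have := Nat.le_of_dvd (by omega) h0
    omega
  refine ⟨t / s, ?_⟩
  rw [← hD] at ht
  push_cast at ht
  field_simp
  linear_combination ht

theorem exists_nonres (D : ℕ) (hD : ¬ IsSquare D) (M : ℕ) :
    ∃ p, M < p ∧ ∃ _ : p.Prime, p ≠ 2 ∧ ¬ IsSquare (D : ZMod p) := by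
  obtain ⟨d, s, hds, hsq⟩ := Nat.sq_mul_squarefree D
  have hD0 : D ≠ 0 := by
    rintro rfl
    exact hD ⟨0, rfl⟩
  have hd1 : d ≠ 1 := by
    rintro rfl
    apply hD
    exact ⟨s, by rw [← hds]; ring⟩
  have hd0 : d ≠ 0 := hsq.ne_zero
  by_cases hodd : ∃ q, q.Prime ∧ q ≠ 2 ∧ q ∣ d
  · obtain ⟨q, hq, hq2, m, rfl⟩ := hodd
    have : Fact q.Prime := ⟨hq⟩
    have hm0 : m ≠ 0 := by
      rintro rfl
      simp at hd0
    have hqm : ¬ q ∣ m := by
      rintro ⟨k, rfl⟩
      have := hsq q ⟨k, by ring⟩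
      rw [Nat.isUnit_iff] at this
      exact hq.one_lt.ne' this
    have hqodd : Odd q := hq.odd_of_ne_two hq2
    have hcop : (4 * m).Coprime q := by
      rw [Nat.coprime_comm, hq.coprime_iff_not_dvd]
      intro h
      rcases (Nat.Prime.dvd_mul hq).1 h with h1 | h1
      · have h2 : q ∣ 2 ^ 2 := by norm_num; exact h1
        have := hq.dvd_of_dvd_pow h2
        rw [Nat.prime_dvd_prime_iff_eq hq Nat.prime_two] at this
        exact hq2 this
      · exact hqm h1
    obtain ⟨r, hr⟩ := FiniteField.exists_nonsquare (F := ZMod q) (by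
      rw [ZMod.ringChar_zmod_n]; exact hq2)
    obtain ⟨a, ha1, ha2⟩ := Nat.chineseRemainder hcop 1 r.val
    have hr0 : r ≠ 0 := by
      rintro rfl
      exact hr ⟨0, by simp⟩
    have har : (a : ZMod q) = r := by
      have h1 : (a : ZMod q) = (r.val : ZMod q) := (ZMod.natCast_eq_natCast_iff _ _ _).2 ha2
      rw [h1, ZMod.natCast_zmod_val]
    have hacop : a.Coprime (4 * m * q) := by
      apply Nat.Coprime.mul_right
      · have : a.gcd (4 * m) = Nat.gcd 1 (4 * m) := ha1.gcd_eq
        rw [Nat.coprime_iff_gcd_eq_one, this]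
        simp
      · rw [Nat.coprime_comm, hq.coprime_iff_not_dvd, ← ZMod.natCast_eq_zero_iff, har]
        exact hr0
    obtain ⟨n, hnM, hn, hna⟩ := Nat.forall_exists_prime_gt_and_modEq (M + D + 2)
      (show 4 * m * q ≠ 0 by
        have := hq.pos
        positivity) hacop
    have : Fact n.Prime := ⟨hn⟩
    refine ⟨n, by omega, hn, by omega, ?_⟩
    apply nonres_of_squarefree_part hds (by omega) hD0
    rw [← legendreSym.eq_neg_one_iff', jacobiSym.legendreSym.to_jacobiSym]
    have hnodd : Odd n := hn.odd_of_ne_two (by omega)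
    have hn4m : n ≡ 1 [MOD 4 * m] := (hna.of_mul_right _).trans ha1
    have hn4 : n % 4 = 1 := by
      have := (hn4m.of_mul_right m)
      exact this
    have hnq : n ≡ r.val [MOD q] := (Nat.ModEq.of_mul_left _ hna).trans ha2
    push_cast
    rw [jacobiSym.mul_left]
    have h1 : J((m : ℤ) | n) = 1 := by
      rw [jacobiSym.mod_right _ hnodd, Int.natAbs_natCast]
      have : n % (4 * m) = 1 := by
        rw [hn4m]
        exact Nat.mod_eq_of_lt (by omega)
      rw [this, jacobiSym.one_right]
    have h2 : J((q : ℤ) | n) = -1 := by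
      rw [← jacobiSym.quadratic_reciprocity_one_mod_four hn4 hqodd, ← jacobiSym.legendreSym.to_jacobiSym,
        legendreSym.eq_neg_one_iff']
      have : (n : ZMod q) = r := by
        have h1 : (n : ZMod q) = (r.val : ZMod q) := (ZMod.natCast_eq_natCast_iff _ _ _).2 hnq
        rw [h1, ZMod.natCast_zmod_val]
      rw [this]
      exact hr
    rw [h1, h2]
    norm_num
  · push Not at hodd
    have hd2 : d = 2 := by
      have h1 := Nat.eq_prime_pow_of_unique_prime_dvd (p := 2) hd0 (by
        intro q hq hqd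
        by_contra h
        exact hodd q hq h hqd)
      set k := d.primeFactorsList.length with hk
      rcases Nat.lt_or_ge k 2 with h2 | h2
      · interval_cases k
        · simp at h1
          exact absurd h1 hd1
        · simpa using h1
      · exfalso
        have h3 : 2 * 2 ∣ d := by
          rw [h1]
          exact pow_dvd_pow 2 h2
        have := hsq 2 h3
        rw [Nat.isUnit_iff] at this
        omega
    obtain ⟨n, hnM, hn, hna⟩ := Nat.forall_exists_prime_gt_and_modEq (M + D + 2)
      (show 8 ≠ 0 by norm_num) (show Nat.Coprime 5 8 by norm_num)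
    have : Fact n.Prime := ⟨hn⟩
    refine ⟨n, by omega, hn, by omega, ?_⟩
    apply nonres_of_squarefree_part hds (by omega) hD0
    rw [hd2]
    have h5 : n % 8 = 5 := hna
    have := ZMod.exists_sq_eq_two_iff (p := n) (by omega)
    push_cast
    rw [this]
    omega

/-- The same in terms of Euler's criterion. -/
theorem exists_nonres_pow (D : ℕ) (hD : ¬ IsSquare D) (M : ℕ) :
    ∃ p, M < p ∧ p ≠ 2 ∧ ∃ _ : Fact p.Prime, ((D : ℤ) : ZMod p) ^ ((p - 1) / 2) = -1 := by
  obtain ⟨p, h1, h2, h3, h4⟩ := exists_nonres D hD M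
  have : Fact p.Prime := ⟨h2⟩
  refine ⟨p, h1, h3, ⟨h2⟩, ?_⟩
  rw [← legendreSym.eq_neg_one_iff'] at h4
  have h5 := legendreSym.eq_pow p (D : ℤ)
  rw [h4] at h5
  have h6 : p / 2 = (p - 1) / 2 := by
    have := (h2.odd_of_ne_two h3)
    rcases this with ⟨k, rfl⟩
    omega
  rw [h6] at h5
  rw [← h5]
  push_cast
  ring

end Pool.Agent.H90.SR
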