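import Pool.Agent.H90.SR.Gap
import Pool.Agent.H90.SR.Nonres

/-!
# Linear relations between the digits of a quadratic irrational
-/

set_option autoImplicit false

namespace Pool.Agent.H90.SR

open Finset Pool.Agent.K7.H59.DC Filter

noncomputable section

/-- The `k`-th digit of `ξ` after the point in base `b`. -/
def digit (b : ℕ) (ξ : ℝ) (k : ℕ) : ℤ := ⌊ξ * (b : ℝ) ^ k⌋ % (b : ℤ)

theorem digit_mem {b : ℕ} (hb : 2 ≤ b) (ξ : ℝ) (k : ℕ) : 0 ≤ digit b ξ k ∧ digit b ξ k < b := by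
  have hb' : (0 : ℤ) < b := by exact_mod_cast (by omega : 0 < b)
  unfold digit
  exact ⟨Int.emod_nonneg _ hb'.ne', Int.emod_lt_of_pos _ hb'⟩

theorem floor_succ' {b : ℕ} (hb : 2 ≤ b) (ξ : ℝ) (k : ℕ) :
    ⌊ξ * (b : ℝ) ^ (k + 1)⌋ = b * ⌊ξ * (b : ℝ) ^ k⌋ + digit b ξ (k + 1) := by
  have hb' : (0 : ℤ) < b := by exact_mod_cast (by omega : 0 < b)
  have hbR : (0 : ℝ) < b := by exact_mod_cast (by omega : 0 < b)
  unfold digit
  set y : ℝ := ξ * (b : ℝ) ^ k with hy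
  have h1 : ξ * (b : ℝ) ^ (k + 1) = b * y := by rw [hy, pow_succ]; ring
  rw [h1]
  have h2 := Int.floor_le y
  have h3 := Int.lt_floor_add_one y
  have h4 : (b : ℤ) * ⌊y⌋ ≤ ⌊(b : ℝ) * y⌋ := by
    rw [Int.le_floor]; push_cast
    exact mul_le_mul_of_nonneg_left h2 hbR.le
  have h5 : ⌊(b : ℝ) * y⌋ < b * ⌊y⌋ + b := by
    rw [Int.floor_lt]; push_cast
    have := mul_lt_mul_of_pos_left h3 hbR
    linarith
  have h6 : ⌊(b : ℝ) * y⌋ / (b : ℤ) = ⌊y⌋ := by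
    rw [Int.ediv_eq_iff_of_pos hb']
    constructor <;> linarith
  have h7 := Int.emod_add_mul_ediv ⌊(b : ℝ) * y⌋ b
  rw [h6] at h7
  linarith

/-- The digits with the integer part at the place `0`. -/
def dg (b : ℕ) (ξ : ℝ) (k : ℕ) : ℤ := if k = 0 then ⌊ξ⌋ else digit b ξ k

theorem partial_sum' {b : ℕ} (hb : 2 ≤ b) (ξ : ℝ) (m : ℕ) :
    ∑ k ∈ range (m + 1), (dg b ξ k : ℝ) / (b : ℝ) ^ k = (⌊ξ * (b : ℝ) ^ m⌋ : ℝ) / (b : ℝ) ^ m := by
  have hbR : (0 : ℝ) < b := by exact_mod_cast (by omega : 0 < b)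
  induction m with
  | zero => simp [dg]
  | succ m ih =>
    rw [Finset.sum_range_succ, ih, floor_succ' hb]
    simp only [dg, Nat.add_eq_zero_iff, one_ne_zero, and_false, if_false]
    push_cast
    field_simp
    ring

theorem dg_bounded {b : ℕ} (hb : 2 ≤ b) (ξ : ℝ) (k : ℕ) :
    |dg b ξ k| ≤ ((b + ⌊ξ⌋.natAbs : ℕ) : ℤ) := by
  have hb0 : (0 : ℤ) ≤ b := by positivity
  unfold dg
  split_ifs with h
  · push_cast
    linarith
  · have h1 := digit_mem hb ξ k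
    rw [abs_of_nonneg h1.1]
    push_cast
    have := abs_nonneg ⌊ξ⌋
    linarith

theorem summable_bounded {b : ℕ} (hb : 2 ≤ b) (a : ℕ → ℤ) (C : ℕ) (ha : ∀ k, |a k| ≤ C) :
    Summable fun k => (a k : ℝ) / (b : ℝ) ^ k := by
  have hb1 : (2 : ℝ) ≤ b := by exact_mod_cast hb
  have hb0 : (0 : ℝ) < b := by linarith
  have hg : Summable (fun k : ℕ => (C : ℝ) * (1 / 2 : ℝ) ^ k) :=
    (summable_geometric_of_lt_one (by norm_num) (by norm_num)).mul_left _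
  refine Summable.of_norm_bounded hg fun k => ?_
  rw [norm_div, Real.norm_eq_abs, Real.norm_eq_abs, abs_of_pos (pow_pos hb0 k), one_div,
    inv_pow, div_eq_mul_inv]
  have h1 : |(a k : ℝ)| ≤ C := by exact_mod_cast ha k
  refine mul_le_mul h1 ?_ (by positivity) (by positivity)
  exact inv_anti₀ (by positivity) (pow_le_pow_left₀ (by norm_num) hb1 k)

theorem hasSum_dg {b : ℕ} (hb : 2 ≤ b) (ξ : ℝ) :
    HasSum (fun k : ℕ => (dg b ξ k : ℝ) / (b : ℝ) ^ k) ξ := by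
  have hb1 : (2 : ℝ) ≤ b := by exact_mod_cast hb
  have hb0 : (0 : ℝ) < b := by linarith
  have hs := summable_bounded hb (dg b ξ) _ (dg_bounded hb ξ)
  rw [hs.hasSum_iff_tendsto_nat, ← Filter.tendsto_add_atTop_iff_nat 1]
  simp only [partial_sum' hb]
  have hlow : ∀ m : ℕ, ξ - (1 / (b : ℝ)) ^ m ≤ (⌊ξ * (b : ℝ) ^ m⌋ : ℝ) / (b : ℝ) ^ m := by
    intro m
    have hbm : (0 : ℝ) < (b : ℝ) ^ m := by positivity
    rw [le_div_iff₀ hbm, sub_mul, ← mul_pow, one_div, inv_mul_cancel₀ hb0.ne', one_pow]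
    have := Int.lt_floor_add_one (ξ * (b : ℝ) ^ m)
    linarith
  have hup : ∀ m : ℕ, (⌊ξ * (b : ℝ) ^ m⌋ : ℝ) / (b : ℝ) ^ m ≤ ξ := by
    intro m
    rw [div_le_iff₀ (by positivity)]
    exact Int.floor_le _
  refine tendsto_of_tendsto_of_tendsto_of_le_of_le ?_ tendsto_const_nhds hlow hup
  have h1 : 1 / (b : ℝ) < 1 := by rw [div_lt_one hb0]; linarith
  have := tendsto_pow_atTop_nhds_zero_of_lt_one (by positivity : (0 : ℝ) ≤ 1 / (b : ℝ)) h1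
  simpa using this.const_sub ξ

/-- The integer `∑_{i < j} a i b^(j - i)`. -/
def hd (b : ℕ) (a : ℕ → ℤ) (j : ℕ) : ℤ := ∑ i ∈ range j, a i * (b : ℤ) ^ (j - i)

theorem hasSum_shift' {b : ℕ} (hb : 2 ≤ b) (a : ℕ → ℤ) (ξ : ℝ)
    (ha : HasSum (fun k : ℕ => (a k : ℝ) / (b : ℝ) ^ k) ξ) (j : ℕ) :
    HasSum (fun k : ℕ => (a (k + j) : ℝ) / (b : ℝ) ^ k) ((b : ℝ) ^ j * ξ - hd b a j) := by
  have hb1 : (2 : ℝ) ≤ b := by exact_mod_cast hb
  have hb0 : (0 : ℝ) < b := by linarith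
  have h1 := (hasSum_nat_add_iff' j).2 ha
  have h2 := h1.mul_left ((b : ℝ) ^ j)
  have e1 : (fun k : ℕ => (b : ℝ) ^ j * ((a (k + j) : ℝ) / (b : ℝ) ^ (k + j))) =
      fun k : ℕ => (a (k + j) : ℝ) / (b : ℝ) ^ k := by
    funext k
    rw [pow_add]
    field_simp
  rw [e1] at h2
  have e2 : (b : ℝ) ^ j * (ξ - ∑ i ∈ range j, (a i : ℝ) / (b : ℝ) ^ i) =
      (b : ℝ) ^ j * ξ - hd b a j := by
    rw [mul_sub]
    congr 1
    unfold hd
    push_cast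
    rw [Finset.mul_sum]
    apply Finset.sum_congr rfl
    intro i hi
    rw [mem_range] at hi
    have : (b : ℝ) ^ j = (b : ℝ) ^ (j - i) * (b : ℝ) ^ i := by
      rw [← pow_add]; congr 1; omega
    rw [this]
    field_simp
  rw [e2] at h2
  exact h2

/-- The value of a relation, multiplied by `c (b - 1)` and corrected at the place `0`. -/
def rl (b : ℕ) (a : ℕ → ℤ) (c m : ℤ) (J : ℕ) (q : ℕ → ℤ) (e : ℤ) (k : ℕ) : ℤ :=
  c * (b - 1) * (∑ j ∈ range J, q j * a (k + j) - e) +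
    if k = 0 then c * (b - 1) * (∑ j ∈ range J, q j * hd b a j) + c * e * b +
      m * ((b - 1) * ∑ j ∈ range J, q j * (b : ℤ) ^ j) else 0

theorem hasSum_rl {b : ℕ} (hb : 2 ≤ b) (a : ℕ → ℤ) (ξ : ℝ)
    (ha : HasSum (fun k : ℕ => (a k : ℝ) / (b : ℝ) ^ k) ξ) (c m : ℤ) (J : ℕ) (q : ℕ → ℤ) (e : ℤ) :
    HasSum (fun k : ℕ => (rl b a c m J q e k : ℝ) / (b : ℝ) ^ k)
      (((((b : ℤ) - 1) * ∑ j ∈ range J, q j * (b : ℤ) ^ j : ℤ) : ℝ) * (c * ξ + m)) := by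
  have hb1 : (2 : ℝ) ≤ b := by exact_mod_cast hb
  have hb0 : (0 : ℝ) < b := by linarith
  have hb2 : (b : ℝ) - 1 ≠ 0 := by linarith
  have h1 : HasSum (fun k : ℕ => ∑ j ∈ range J, (q j : ℝ) * ((a (k + j) : ℝ) / (b : ℝ) ^ k))
      (∑ j ∈ range J, (q j : ℝ) * ((b : ℝ) ^ j * ξ - hd b a j)) :=
    hasSum_sum fun j _ => (hasSum_shift' hb a ξ ha j).mul_left (q j : ℝ)
  have h2 : HasSum (fun k : ℕ => (e : ℝ) * (1 / b : ℝ) ^ k) ((e : ℝ) * (b / (b - 1))) := by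
    have h3 : 1 / (b : ℝ) < 1 := by rw [div_lt_one hb0]; linarith
    have h4 := hasSum_geometric_of_lt_one (by positivity : (0 : ℝ) ≤ 1 / b) h3
    have h5 : (1 - 1 / (b : ℝ))⁻¹ = b / (b - 1) := by
      field_simp
    rw [h5] at h4
    exact h4.mul_left _
  set K : ℤ := c * (b - 1) * (∑ j ∈ range J, q j * hd b a j) + c * e * b +
      m * ((b - 1) * ∑ j ∈ range J, q j * (b : ℤ) ^ j) with hK
  have h3 : HasSum (fun k : ℕ => if k = 0 then (K : ℝ) else 0) (K : ℝ) :=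
    hasSum_ite_eq 0 _
  have h4 := ((h1.sub h2).mul_left ((c : ℝ) * (b - 1))).add h3
  have e1 : (fun k : ℕ => (rl b a c m J q e k : ℝ) / (b : ℝ) ^ k) = fun k : ℕ =>
      (c : ℝ) * (b - 1) * (∑ j ∈ range J, (q j : ℝ) * ((a (k + j) : ℝ) / (b : ℝ) ^ k) -
        (e : ℝ) * (1 / b : ℝ) ^ k) + if k = 0 then (K : ℝ) else 0 := by
    funext k
    unfold rl
    rw [← hK]
    have e3 : ∑ j ∈ range J, (q j : ℝ) * ((a (k + j) : ℝ) / (b : ℝ) ^ k) =
        (∑ j ∈ range J, (q j : ℝ) * (a (k + j) : ℝ)) / (b : ℝ) ^ k := by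
      rw [Finset.sum_div]
      exact Finset.sum_congr rfl fun j _ => (mul_div_assoc _ _ _).symm
    rw [e3]
    by_cases hk : k = 0
    · subst hk; simp
    · rw [if_neg hk, if_neg hk]
      push_cast
      rw [one_div, inv_pow]
      ring
  have e2 : ((((b : ℤ) - 1) * ∑ j ∈ range J, q j * (b : ℤ) ^ j : ℤ) : ℝ) * (c * ξ + m) =
      (c : ℝ) * (b - 1) * (∑ j ∈ range J, (q j : ℝ) * ((b : ℝ) ^ j * ξ - hd b a j) -
        (e : ℝ) * (b / (b - 1))) + (K : ℝ) := by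
    rw [hK]
    push_cast
    have : ∀ j ∈ range J, (q j : ℝ) * ((b : ℝ) ^ j * ξ - hd b a j) =
        (q j : ℝ) * (b : ℝ) ^ j * ξ - q j * hd b a j := by intro j _; ring
    rw [Finset.sum_congr rfl this, Finset.sum_sub_distrib, ← Finset.sum_mul]
    field_simp
    ring
  rw [e1, e2]
  exact h4

theorem rl_bounded (b : ℕ) (a : ℕ → ℤ) (C : ℕ) (ha : ∀ k, |a k| ≤ C) (c m : ℤ) (J : ℕ)
    (q : ℕ → ℤ) (e : ℤ) : ∃ C' : ℕ, ∀ k, |rl b a c m J q e k| ≤ C' := by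
  set K : ℤ := c * (b - 1) * (∑ j ∈ range J, q j * hd b a j) + c * e * b +
      m * ((b - 1) * ∑ j ∈ range J, q j * (b : ℤ) ^ j) with hK
  have h0 : 0 ≤ ∑ j ∈ range J, |q j| * C := Finset.sum_nonneg fun j _ => by positivity
  refine ⟨(|c * (b - 1)| * (∑ j ∈ range J, |q j| * C + |e|) + |K|).toNat, ?_⟩
  intro k
  have h1 := abs_nonneg e
  have h2 := abs_nonneg K
  have h3 := abs_nonneg (c * ((b : ℤ) - 1))
  rw [Int.toNat_of_nonneg (by positivity)]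
  unfold rl
  rw [← hK]
  have h4 : |∑ j ∈ range J, q j * a (k + j)| ≤ ∑ j ∈ range J, |q j| * C := by
    refine le_trans (Finset.abs_sum_le_sum_abs _ _) (Finset.sum_le_sum fun j _ => ?_)
    rw [abs_mul]
    exact mul_le_mul_of_nonneg_left (ha _) (abs_nonneg _)
  refine le_trans (abs_add_le _ _) (add_le_add ?_ ?_)
  · rw [abs_mul]
    apply mul_le_mul_of_nonneg_left _ h3
    refine le_trans (abs_sub _ _) (by linarith)
  · split_ifs
    · exact le_rfl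
    · simp

variable {p : ℕ} [hpF : Fact p.Prime]

/-- Linear relations with constant coefficients between the digits of a real quadratic irrational:
the places where the relation fails do not have large gaps. -/
theorem relation_eventually (hp2 : p ≠ 2) {b : ℕ} (hb : 2 ≤ b) (ξ : ℝ) (a₂ a₁ a₀ : ℤ)
    (hξ : (a₂ : ℝ) * ξ ^ 2 + a₁ * ξ + a₀ = 0)
    (hn : ((a₁ ^ 2 - 4 * a₂ * a₀ : ℤ) : ZMod p) ^ ((p - 1) / 2) = -1)
    (J : ℕ) (q : ℕ → ℤ) (e : ℤ)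
    (hpb : ¬ (p : ℤ) ∣ b * (b - 1) * ∑ j ∈ range J, q j * (b : ℤ) ^ j)
    (δ : ℝ) (hδ0 : 0 ≤ δ) (hδ : (p + 3) * δ < 1) :
    ∀ᶠ N : ℕ in atTop, ∃ k k' : ℕ, (N : ℝ) ^ δ ≤ k ∧ k < k' ∧ k' < N ∧
      ∑ j ∈ range J, q j * digit b ξ (k + j) ≠ e ∧ ∑ j ∈ range J, q j * digit b ξ (k' + j) ≠ e ∧
      ((k' : ℝ) - k) * (N : ℝ) ^ δ < k := by
  obtain ⟨C, hC⟩ := rl_bounded b (dg b ξ) _ (dg_bounded hb ξ) (2 * a₂) a₁ J q e
  set Q : ℤ := ∑ j ∈ range J, q j * (b : ℤ) ^ j with hQ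
  have hsum := hasSum_rl hb (dg b ξ) ξ (hasSum_dg hb ξ) (2 * a₂) a₁ J q e
  rw [← hQ] at hsum
  have hD : (((((b : ℤ) - 1) * Q : ℤ) : ℝ) * (((2 * a₂ : ℤ) : ℝ) * ξ + a₁)) ^ 2 =
      (((((b : ℤ) - 1) * Q) ^ 2 * (a₁ ^ 2 - 4 * a₂ * a₀) : ℤ) : ℝ) := by
    push_cast
    linear_combination (((b : ℝ) - 1) * Q) ^ 2 * (4 * a₂) * hξ
  have hbQ : ((b : ℤ) : ZMod p) ≠ 0 ∧ ((((b : ℤ) - 1) * Q : ℤ) : ZMod p) ≠ 0 := by
    rw [mul_assoc, ← ZMod.intCast_zmod_eq_zero_iff_dvd] at hpb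
    constructor
    · intro h
      apply hpb
      push_cast at h ⊢
      rw [h, zero_mul]
    · intro h
      apply hpb
      push_cast at h ⊢
      rw [h, mul_zero]
  have hn2 : (((((b : ℤ) - 1) * Q) ^ 2 * (a₁ ^ 2 - 4 * a₂ * a₀) : ℤ) : ZMod p) ^ ((p - 1) / 2) =
      -1 := by
    rw [Int.cast_mul, mul_pow, hn, Int.cast_pow, ← pow_mul]
    have hodd : 2 * ((p - 1) / 2) = p - 1 := by
      have := hpF.out.odd_of_ne_two hp2
      rcases this with ⟨k, hk⟩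
      omega
    rw [hodd, ZMod.pow_card_sub_one_eq_one hbQ.2, one_mul]
  have hmain := gap_eventually hp2 b hb (by exact_mod_cast hbQ.1) C _ hC _ hsum _ hD hn2 δ hδ0 hδ
  filter_upwards [hmain, eventually_ge_atTop 1] with N hN hN1
  obtain ⟨a, a', h1, h2, h3, h4, h5, h6⟩ := hN
  have hN1' : (1 : ℝ) ≤ N := by exact_mod_cast hN1
  have ha1 : (1 : ℝ) ≤ a := le_trans (Real.one_le_rpow hN1' hδ0) h1
  have ha1' : 1 ≤ a := by exact_mod_cast ha1
  have key : ∀ k, 1 ≤ k → rl b (dg b ξ) (2 * a₂) a₁ J q e k ≠ 0 →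
      ∑ j ∈ range J, q j * digit b ξ (k + j) ≠ e := by
    intro k hk hne heq
    apply hne
    unfold rl
    rw [if_neg (by omega), add_zero]
    have h7 : ∑ j ∈ range J, q j * dg b ξ (k + j) = ∑ j ∈ range J, q j * digit b ξ (k + j) := by
      apply Finset.sum_congr rfl
      intro j _
      unfold dg
      rw [if_neg (by omega)]
    rw [h7, heq, sub_self, mul_zero]
  exact ⟨a, a', h1, h2, h3, key a ha1' h4, key a' (by omega) h5, h6⟩

/-- `digit b ξ k ≠ digit b ξ (k + 1)`, the digits at the places `k + 1, …, k + t` are equal, and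
`digit b ξ (k + t) ≠ digit b ξ (k + t + 1)`. -/
def IsRun (b : ℕ) (ξ : ℝ) (k t : ℕ) : Prop :=
  1 ≤ t ∧ digit b ξ k ≠ digit b ξ (k + 1) ∧
    (∀ i, 1 ≤ i → i ≤ t → digit b ξ (k + i) = digit b ξ (k + 1)) ∧
    digit b ξ (k + t) ≠ digit b ξ (k + t + 1)

theorem run_of_changes (b : ℕ) (ξ : ℝ) (k k' : ℕ) (hkk : k < k')
    (h1 : digit b ξ k ≠ digit b ξ (k + 1)) (h2 : digit b ξ k' ≠ digit b ξ (k' + 1)) :
    ∃ t, t ≤ k' - k ∧ IsRun b ξ k t := by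
  classical
  have hex : ∃ t, 1 ≤ t ∧ digit b ξ (k + t) ≠ digit b ξ (k + t + 1) :=
    ⟨k' - k, by omega, by rw [show k + (k' - k) = k' by omega]; exact h2⟩
  refine ⟨Nat.find hex, Nat.find_min' hex ⟨by omega, by
    rw [show k + (k' - k) = k' by omega]; exact h2⟩, (Nat.find_spec hex).1, h1, ?_,
    (Nat.find_spec hex).2⟩
  intro i hi
  induction i, hi using Nat.le_induction with
  | base => intro _; rfl
  | succ i hi ih =>
    intro hit
    have h3 := Nat.find_min hex (m := i) (by omega)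
    push Not at h3
    rw [← ih (by omega), h3 hi]
    rfl

/-- Short runs of equal digits of a real quadratic irrational. -/
theorem run_eventually (hp2 : p ≠ 2) {b : ℕ} (hb : 2 ≤ b) (ξ : ℝ) (a₂ a₁ a₀ : ℤ)
    (hξ : (a₂ : ℝ) * ξ ^ 2 + a₁ * ξ + a₀ = 0)
    (hn : ((a₁ ^ 2 - 4 * a₂ * a₀ : ℤ) : ZMod p) ^ ((p - 1) / 2) = -1)
    (hpb : ¬ (p : ℤ) ∣ b * (b - 1)) (δ : ℝ) (hδ0 : 0 ≤ δ) (hδ : (p + 3) * δ < 1) :
    ∀ᶠ N : ℕ in atTop, ∃ k t : ℕ, IsRun b ξ k t ∧ (N : ℝ) ^ δ ≤ k ∧ k + t < N ∧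
      (t : ℝ) * (N : ℝ) ^ δ < k := by
  have h := relation_eventually hp2 hb ξ a₂ a₁ a₀ hξ hn 2 (fun j => if j = 0 then -1 else 1) 0
    (by
      intro hd
      rw [Finset.sum_range_succ, Finset.sum_range_one] at hd
      simp only [if_true, one_ne_zero, if_false, pow_zero, pow_one, one_mul, mul_one] at hd
      have hpr : Prime (p : ℤ) := Nat.prime_iff_prime_int.1 hpF.out
      rcases hpr.dvd_or_dvd hd with h1 | h1
      · exact hpb h1
      · exact hpb (dvd_mul_of_dvd_right (by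
          rw [show (b : ℤ) - 1 = -1 + b by ring]; exact h1) _))
    δ hδ0 hδ
  filter_upwards [h] with N hN
  obtain ⟨k, k', h1, h2, h3, h4, h5, h6⟩ := hN
  rw [Finset.sum_range_succ, Finset.sum_range_one] at h4 h5
  simp only [if_true, one_ne_zero, if_false, add_zero, one_mul, neg_mul, neg_add_eq_sub, ne_eq,
    sub_eq_zero] at h4 h5
  obtain ⟨t, ht, hrun⟩ := run_of_changes b ξ k k' h2 (fun h => h4 h.symm) (fun h => h5 h.symm)
  refine ⟨k, t, hrun, h1, by omega, lt_of_le_of_lt ?_ h6⟩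
  have h7 : (t : ℝ) ≤ (k' : ℝ) - k := by
    have h8 : ((t + k : ℕ) : ℝ) ≤ k' := by exact_mod_cast (by omega : t + k ≤ k')
    push_cast at h8
    linarith
  have h8 : (0 : ℝ) ≤ (N : ℝ) ^ δ := by positivity
  exact mul_le_mul_of_nonneg_right h7 h8

end

end Pool.Agent.H90.SR
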