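import Pool.Agent.H90.SR.Core

/-!
# Two nonzero terms of an expansion of a square root which are close to each other
-/

set_option autoImplicit false

namespace Pool.Agent.H90.SR

open Finset Pool.Agent.K7.H59.DC Filter

/-- A set with geometric gaps has few elements. -/
theorem card_le_of_gap (S : Finset ℕ) (G N : ℕ) (hG : 1 ≤ G)
    (hS : ∀ a ∈ S, G ≤ a ∧ a < N) (hgap : ∀ a ∈ S, ∀ a' ∈ S, a < a' → a ≤ G * (a' - a)) :
    S.card ≤ (Nat.log 2 N + 1) * (2 * G) := by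
  have h := Finset.card_le_card_of_injOn (s := S)
    (t := range (Nat.log 2 N + 1) ×ˢ range (2 * G))
    (fun a => (Nat.log 2 a, a * G / 2 ^ Nat.log 2 a)) ?_ ?_
  · rw [card_product, card_range, card_range] at h
    exact h
  · intro a ha
    obtain ⟨h1, h2⟩ := hS a ha
    simp only [coe_product, coe_range, Set.mem_prod, Set.mem_Iio]
    constructor
    · have := Nat.log_mono_right (b := 2) h2.le
      omega
    · rw [Nat.div_lt_iff_lt_mul (by positivity)]
      have h3 : a < 2 ^ (Nat.log 2 a + 1) := Nat.lt_pow_succ_log_self (by norm_num) a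
      calc a * G < 2 ^ (Nat.log 2 a + 1) * G := Nat.mul_lt_mul_of_pos_right h3 (by omega)
        _ = 2 * G * 2 ^ Nat.log 2 a := by ring
  · have key : ∀ a ∈ S, ∀ a' ∈ S, a < a' → Nat.log 2 a = Nat.log 2 a' →
        a * G / 2 ^ Nat.log 2 a ≠ a' * G / 2 ^ Nat.log 2 a' := by
      intro a ha a' ha' hlt hlog
      rw [← hlog]
      obtain ⟨h1, h2⟩ := hS a ha
      have h3 : 2 ^ Nat.log 2 a ≤ a := Nat.pow_log_le_self 2 (by omega)
      have h4 := hgap a ha a' ha' hlt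
      have h5 : a * G + 2 ^ Nat.log 2 a ≤ a' * G := by
        have h6 : G * (a' - a) + a * G = a' * G := by
          rw [mul_comm G, ← Nat.add_mul, Nat.sub_add_cancel hlt.le]
        omega
      have h6 : (a * G + 2 ^ Nat.log 2 a) / 2 ^ Nat.log 2 a ≤ a' * G / 2 ^ Nat.log 2 a :=
        Nat.div_le_div_right h5
      rw [Nat.add_div_right _ (by positivity)] at h6
      omega
    intro a ha a' ha' heq
    simp only [Prod.mk.injEq] at heq
    rcases Nat.lt_trichotomy a a' with h | h | h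
    · exact absurd heq.2 (key a ha a' ha' h heq.1)
    · exact h
    · exact absurd heq.2.symm (key a' ha' a ha h heq.1.symm)

variable {p : ℕ} [hpF : Fact p.Prime]

/-- The finite form. -/
theorem gap_finite (hp2 : p ≠ 2) (b : ℕ) (hb : 2 ≤ b) (hpb : (b : ZMod p) ≠ 0) (C : ℕ)
    (ε : ℕ → ℤ) (hε : ∀ k, |ε k| ≤ C) (x : ℝ)
    (hx : HasSum (fun k => (ε k : ℝ) / (b : ℝ) ^ k) x) (D : ℤ) (hD : x ^ 2 = D)
    (hn : (D : ZMod p) ^ ((p - 1) / 2) = -1) (N G Λ : ℕ) (hG : 1 ≤ G)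
    (hΛ : C ^ 2 * (N + 3) < 2 ^ Λ)
    (hN : 168 * p ^ 5 * (G + 1) ^ 3 * ((G * (2 * Nat.log 2 N + 3)) ^ p * Λ + 1) + Λ ≤ N) :
    ∃ a a', G ≤ a ∧ a < a' ∧ a' < N ∧ ε a ≠ 0 ∧ ε a' ≠ 0 ∧ G * (a' - a) < a := by
  classical
  by_contra hcon
  push Not at hcon
  have hp0 : 0 < p := hpF.out.pos
  have hp3 : 3 ≤ p := by
    have := hpF.out.two_le
    omega
  obtain ⟨E, hE, hgood⟩ := good_main hp2 b hb hpb C ε hε x hx D hD hn (N - Λ) Λ
    (by rw [show N - Λ + Λ + 3 = N + 3 by omega]; exact hΛ)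
  rw [Nat.sub_add_cancel (by omega)] at hE
  -- few places
  have hcard : (places ε N).card ≤ G * (2 * Nat.log 2 N + 3) := by
    set S := (range N).filter fun a => G ≤ a ∧ ε a ≠ 0 with hS
    have h1 : places ε N ⊆ range G ∪ S := by
      intro a ha
      simp only [places, mem_insert, mem_filter, mem_range] at ha
      rw [mem_union, mem_range, hS, mem_filter, mem_range]
      rcases ha with rfl | ⟨ha1, ha2⟩
      · left; omega
      · rcases Nat.lt_or_ge a G with h | h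
        · left; exact h
        · right; exact ⟨ha1, h, ha2⟩
    have h2 := card_le_of_gap S G N hG
      (by
        intro a ha
        rw [hS, mem_filter, mem_range] at ha
        exact ⟨ha.2.1, ha.1⟩)
      (by
        intro a ha a' ha' hlt
        rw [hS, mem_filter, mem_range] at ha ha'
        exact hcon a a' ha.2.1 hlt ha'.1 ha.2.2 ha'.2.2)
    calc (places ε N).card ≤ (range G ∪ S).card := card_le_card h1
      _ ≤ (range G).card + S.card := card_union_le _ _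
      _ ≤ G + (Nat.log 2 N + 1) * (2 * G) := by rw [card_range]; omega
      _ = G * (2 * Nat.log 2 N + 3) := by ring
  set K := G * (2 * Nat.log 2 N + 3) with hK
  have hEK : E.card < K ^ p * Λ + 1 := by
    refine lt_of_le_of_lt hE (Nat.lt_succ_of_le ?_)
    exact Nat.mul_le_mul_right _ (Nat.pow_le_pow_left hcard p)
  have hw1 : 1 ≤ K ^ p * Λ + 1 := by omega
  have hGN : G ≤ 8 * p * (G + 1) * (K ^ p * Λ + 1) := by
    calc G ≤ 1 * 1 * (G + 1) * 1 := by omega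
      _ ≤ 8 * p * (G + 1) * (K ^ p * Λ + 1) := by gcongr <;> omega
  have hD0 : (D : ZMod p) ≠ 0 := by
    intro h0
    rw [h0, zero_pow (by omega)] at hn
    have : (1 : ZMod p) = 0 := by linear_combination hn
    exact one_ne_zero this
  have hgapH : ∀ a a', 8 * p * (G + 1) * (K ^ p * Λ + 1) ≤ a → a < a' → a' < N - Λ →
      PowerSeries.coeff a (red p b ε) ≠ 0 → PowerSeries.coeff a' (red p b ε) ≠ 0 →
      a' ≤ (G + 1) * (a' - a) := by
    intro a a' ha hlt haN h1 h2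
    have h3 : ε a ≠ 0 := by
      intro h0
      apply h1
      rw [coeff_red, h0]; simp
    have h4 : ε a' ≠ 0 := by
      intro h0
      apply h2
      rw [coeff_red, h0]; simp
    have h5 := hcon a a' (by omega) hlt (by omega) h3 h4
    rw [Nat.add_mul, one_mul]
    omega
  have H : Hyp p (red p b ε) (D : ZMod p) (N - Λ) (8 * p * (G + 1) * (K ^ p * Λ + 1))
      (K ^ p * Λ + 1) (G + 1) E :=
    { hp2 := hp2
      hD := hD0
      hg := by omega
      hE := hEK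
      hN₁ := le_rfl
      good := hgood
      gap := hgapH }
  apply H.false_of_large
  have e1 : 21 * p ^ 4 * (G + 1) ^ 2 * (8 * p * (G + 1) * (K ^ p * Λ + 1)) =
      168 * p ^ 5 * (G + 1) ^ 3 * (K ^ p * Λ + 1) := by ring
  rw [e1]
  omega

/-- Two nonzero terms which are close to each other, at all large scales. -/
theorem gap_eventually (hp2 : p ≠ 2) (b : ℕ) (hb : 2 ≤ b) (hpb : (b : ZMod p) ≠ 0) (C : ℕ)
    (ε : ℕ → ℤ) (hε : ∀ k, |ε k| ≤ C) (x : ℝ)
    (hx : HasSum (fun k => (ε k : ℝ) / (b : ℝ) ^ k) x) (D : ℤ) (hD : x ^ 2 = D)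
    (hn : (D : ZMod p) ^ ((p - 1) / 2) = -1) (δ : ℝ) (hδ0 : 0 ≤ δ) (hδ : (p + 3) * δ < 1) :
    ∀ᶠ N : ℕ in atTop, ∃ a a' : ℕ, (N : ℝ) ^ δ ≤ a ∧ a < a' ∧ a' < N ∧ ε a ≠ 0 ∧ ε a' ≠ 0 ∧
      ((a' : ℝ) - a) * (N : ℝ) ^ δ < a := by
  obtain ⟨c₀, hc₀⟩ : ∃ c₀ : ℕ, C ^ 2 * 8 < 2 ^ c₀ := ⟨C ^ 2 * 8, Nat.lt_two_pow_self⟩
  set η : ℝ := 1 - (p + 3) * δ with hη
  have hη0 : 0 < η := by linarith
  set C' : ℝ := 168 * (p : ℝ) ^ 5 * 27 * (3 * 8 ^ p) with hC'
  have hp0 : (0 : ℝ) < p := by exact_mod_cast hpF.out.pos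
  have hC'0 : 0 < C' := by positivity
  have h1 := (isLittleO_log_rpow_rpow_atTop ((p + 1 : ℕ) : ℝ) hη0).bound
    (show (0 : ℝ) < 1 / (2 * C') by positivity)
  have h2 := tendsto_natCast_atTop_atTop (R := ℝ) |>.eventually h1
  have h3 := Real.isLittleO_log_id_atTop.bound (show (0 : ℝ) < 1 / 4 by norm_num)
  have h4 := tendsto_natCast_atTop_atTop (R := ℝ) |>.eventually h3
  have hlogN : Tendsto (fun n : ℕ => Real.log n) atTop atTop :=
    Real.tendsto_log_atTop.comp tendsto_natCast_atTop_atTop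
  filter_upwards [h2, h4, hlogN.eventually_ge_atTop (2 * c₀ + 3), eventually_ge_atTop 1]
    with N h5 h6 h7 h8
  have hN1 : (1 : ℝ) ≤ N := by exact_mod_cast h8
  have hN0 : (0 : ℝ) < N := by linarith
  have hc₀0 : (0 : ℝ) ≤ c₀ := by positivity
  have hlog3 : 3 ≤ Real.log N := by linarith
  set l := Real.log N with hl
  set y : ℝ := (N : ℝ) ^ δ with hy
  have hy1 : 1 ≤ y := Real.one_le_rpow hN1 hδ0
  set G := ⌈y⌉₊ with hG
  have hG1 : 1 ≤ G := by
    rw [hG]
    exact Nat.one_le_ceil_iff.2 (by linarith)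
  have hGy : y ≤ G := Nat.le_ceil y
  have hGy2 : (G : ℝ) ≤ 2 * y := by
    have := Nat.ceil_lt_add_one (show 0 ≤ y by linarith)
    linarith
  have hlogle : (Nat.log 2 N : ℝ) ≤ 3 / 2 * l := by
    have h9 : 2 ^ (Nat.log 2 N) ≤ N := Nat.pow_log_le_self 2 (by omega)
    have h10 : (2 : ℝ) ^ (Nat.log 2 N) ≤ N := by exact_mod_cast h9
    have h11 := Real.log_le_log (by positivity) h10
    rw [Real.log_pow] at h11
    have h12 := Real.log_two_gt_d9
    have h13 : (0 : ℝ) ≤ Nat.log 2 N := by positivity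
    nlinarith
  set Λ := Nat.log 2 N + c₀ with hΛ
  have hΛl : (Λ : ℝ) ≤ 2 * l := by
    rw [hΛ]; push_cast; linarith
  have hΛ1 : C ^ 2 * (N + 3) < 2 ^ Λ := by
    have h9 : N < 2 ^ (Nat.log 2 N + 1) := Nat.lt_pow_succ_log_self (by norm_num) N
    rw [pow_succ] at h9
    calc C ^ 2 * (N + 3) ≤ C ^ 2 * (8 * 2 ^ Nat.log 2 N) := Nat.mul_le_mul_left _ (by omega)
      _ = C ^ 2 * 8 * 2 ^ Nat.log 2 N := by ring
      _ < 2 ^ c₀ * 2 ^ Nat.log 2 N := Nat.mul_lt_mul_of_pos_right hc₀ (by positivity)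
      _ = 2 ^ Λ := by rw [hΛ, pow_add]; ring
  have hmain : 168 * p ^ 5 * (G + 1) ^ 3 * ((G * (2 * Nat.log 2 N + 3)) ^ p * Λ + 1) + Λ ≤ N := by
    have hK : (G : ℝ) * (2 * Nat.log 2 N + 3) ≤ 8 * (y * l) := by
      calc (G : ℝ) * (2 * Nat.log 2 N + 3) ≤ (2 * y) * (4 * l) := by
            apply mul_le_mul hGy2 _ (by positivity) (by positivity)
            linarith
        _ = 8 * (y * l) := by ring
    have hyl : 1 ≤ y * l := by nlinarith
    have h88 : (1 : ℝ) ≤ (8 * (y * l)) ^ p := one_le_pow₀ (by linarith)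
    have hw : ((G : ℝ) * (2 * Nat.log 2 N + 3)) ^ p * Λ + 1 ≤ 3 * (8 * (y * l)) ^ p * l := by
      have h9 : ((G : ℝ) * (2 * Nat.log 2 N + 3)) ^ p ≤ (8 * (y * l)) ^ p :=
        pow_le_pow_left₀ (by positivity) hK p
      have h10 : ((G : ℝ) * (2 * Nat.log 2 N + 3)) ^ p * Λ ≤ (8 * (y * l)) ^ p * (2 * l) :=
        mul_le_mul h9 hΛl (by positivity) (by positivity)
      nlinarith
    have hG3 : ((G : ℝ) + 1) ^ 3 ≤ 27 * y ^ 3 := by
      have h9 : (G : ℝ) + 1 ≤ 3 * y := by linarith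
      calc ((G : ℝ) + 1) ^ 3 ≤ (3 * y) ^ 3 := pow_le_pow_left₀ (by positivity) h9 3
        _ = 27 * y ^ 3 := by ring
    have htot : 168 * (p : ℝ) ^ 5 * ((G : ℝ) + 1) ^ 3 *
        (((G : ℝ) * (2 * Nat.log 2 N + 3)) ^ p * Λ + 1) ≤
        C' * (y ^ (p + 3) * l ^ (p + 1)) := by
      calc 168 * (p : ℝ) ^ 5 * ((G : ℝ) + 1) ^ 3 *
          (((G : ℝ) * (2 * Nat.log 2 N + 3)) ^ p * Λ + 1)
          ≤ 168 * (p : ℝ) ^ 5 * (27 * y ^ 3) * (3 * (8 * (y * l)) ^ p * l) := by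
            gcongr
        _ = C' * (y ^ (p + 3) * l ^ (p + 1)) := by
            rw [hC', mul_pow, mul_pow]
            ring
    have hyp : y ^ (p + 3) = (N : ℝ) ^ ((p + 3) * δ) := by
      rw [hy, ← Real.rpow_natCast, ← Real.rpow_mul hN0.le]
      congr 1
      push_cast
      ring
    have hll : l ^ (p + 1) ≤ 1 / (2 * C') * (N : ℝ) ^ η := by
      rw [Real.norm_eq_abs, Real.norm_eq_abs, Real.rpow_natCast] at h5
      rw [abs_of_nonneg (by positivity), abs_of_nonneg (by positivity)] at h5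
      exact h5
    have hhalf : C' * (y ^ (p + 3) * l ^ (p + 1)) ≤ N / 2 := by
      calc C' * (y ^ (p + 3) * l ^ (p + 1))
          ≤ C' * ((N : ℝ) ^ ((p + 3) * δ) * (1 / (2 * C') * (N : ℝ) ^ η)) := by
            rw [hyp]
            gcongr
        _ = ((N : ℝ) ^ ((p + 3) * δ) * (N : ℝ) ^ η) / 2 := by
            field_simp
        _ = N / 2 := by
            rw [← Real.rpow_add hN0]
            rw [show (p + 3) * δ + η = 1 by rw [hη]; ring, Real.rpow_one]
    have hΛN : (Λ : ℝ) ≤ N / 2 := by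
      rw [Real.norm_eq_abs, Real.norm_eq_abs, id, abs_of_nonneg hN0.le,
        abs_of_nonneg (by linarith)] at h6
      linarith
    have hfin : ((168 * p ^ 5 * (G + 1) ^ 3 * ((G * (2 * Nat.log 2 N + 3)) ^ p * Λ + 1) + Λ : ℕ) : ℝ)
        ≤ (N : ℝ) := by
      push_cast
      linarith
    exact_mod_cast hfin
  obtain ⟨a, a', g1, g2, g3, g4, g5, g6⟩ := gap_finite hp2 b hb hpb C ε hε x hx D hD hn N G Λ hG1
    hΛ1 hmain
  refine ⟨a, a', le_trans hGy (by exact_mod_cast g1), g2, g3, g4, g5, ?_⟩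
  have h9 : (0 : ℝ) ≤ (a' : ℝ) - a := by
    have : (a : ℝ) < a' := by exact_mod_cast g2
    linarith
  have h10 : (G : ℝ) * ((a' : ℝ) - a) < a := by
    have h11 : ((G * (a' - a) : ℕ) : ℝ) < a := by exact_mod_cast g6
    rw [Nat.cast_mul, Nat.cast_sub g2.le] at h11
    exact h11
  calc ((a' : ℝ) - a) * y ≤ ((a' : ℝ) - a) * G := mul_le_mul_of_nonneg_left hGy h9
    _ = (G : ℝ) * ((a' : ℝ) - a) := by ring
    _ < a := h10

end Pool.Agent.H90.SR
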